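import Pool.Agent.Helper92.PW.St

/-! MODULE FIN of project PW (MP_ad0dc2_nt). -/

set_option autoImplicit false

namespace Pool.Agent.Helper95.PW

open Pool.Agent.Helper92.PW

private theorem bound (h1 : StHGT) (h2 : StSK) (k : ℤ) (hk : NC k) : ∃ C : ℝ, 0 < C ∧
    ∀ Z : ℝ, 2 ≤ Z → ∀ T : Finset Pt, (∀ p ∈ T, Fm p = k ∧ |(p.2.2 : ℝ)| ≤ Z) →
      (T.card : ℝ) ≤ C * Z ^ (199 / 200 : ℝ) := by
  obtain ⟨C1, hC1, H1⟩ := h1 k hk
  obtain ⟨C2, hC2, H2⟩ := h2 k hk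
  refine ⟨2 * C1 + 318400 * C2, by positivity, ?_⟩
  intro Z hZ T hT
  have hZ0 : (0 : ℝ) < Z := by linarith
  have hZ1 : (1 : ℝ) ≤ Z := by linarith
  set W : ℝ := Z ^ (200 / 199 : ℝ) with hW
  have hW0 : 0 < W := Real.rpow_pos_of_pos hZ0 _
  have hZW : Z ≤ W := by
    have := Real.rpow_le_rpow_of_exponent_le hZ1 (show (1 : ℝ) ≤ 200 / 199 by norm_num)
    rwa [Real.rpow_one] at this
  have hW1 : 1 ≤ W := hZ1.trans hZW
  set Y : ℕ := ⌈Z⌉₊ with hY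
  set M : ℕ := ⌈W⌉₊ with hM
  have hY1 : Z ≤ (Y : ℝ) := Nat.le_ceil Z
  have hY2 : (Y : ℝ) ≤ 2 * Z := by
    have := (Nat.ceil_lt_add_one hZ0.le).le
    linarith
  have hM1 : W ≤ (M : ℝ) := Nat.le_ceil W
  have hM2 : (M : ℝ) ≤ 2 * W := by
    have := (Nat.ceil_lt_add_one hW0.le).le
    linarith
  have hYM : Y ≤ M := Nat.ceil_mono hZW
  have hY3 : 2 ≤ Y := by
    have : (2 : ℝ) ≤ (Y : ℝ) := hZ.trans hY1
    exact_mod_cast this
  have hM0 : (0 : ℝ) < M := lt_of_lt_of_le hW0 hM1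
  -- the skew solutions
  set T1 := T.filter (fun p => (M : ℤ) ≤ max |p.1| |p.2.1|) with hT1
  set T2 := T.filter (fun p => ¬ (M : ℤ) ≤ max |p.1| |p.2.1|) with hT2
  have hsum : (T.card : ℝ) = (T1.card : ℝ) + (T2.card : ℝ) := by
    rw [hT1, hT2, ← Nat.cast_add, Finset.card_filter_add_card_filter_not]
  have b1 : (T1.card : ℝ) ≤ C2 * (Y : ℝ) ^ 2 / M * Real.log Y := by
    apply H2 Y M T1 hY3 hYM
    intro t ht
    rw [hT1, Finset.mem_filter] at ht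
    refine ⟨(hT t ht.1).1, ?_, ht.2⟩
    have h3 : ((|t.2.2| : ℤ) : ℝ) ≤ ((Y : ℤ) : ℝ) := by
      rw [Int.cast_abs, Int.cast_natCast]
      exact (hT t ht.1).2.trans hY1
    exact_mod_cast h3
  have b2 : (T2.card : ℝ) ≤ C1 * (M : ℝ) ^ th := by
    apply H1 (M : ℝ) (hW1.trans hM1) T2
    intro p hp
    rw [hT2, Finset.mem_filter, not_le, max_lt_iff] at hp
    refine ⟨(hT p hp.1).1, ?_, ?_, ?_⟩
    · have h3 : ((|p.1| : ℤ) : ℝ) ≤ ((M : ℤ) : ℝ) := by exact_mod_cast hp.2.1.le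
      rwa [Int.cast_abs, Int.cast_natCast] at h3
    · have h3 : ((|p.2.1| : ℤ) : ℝ) ≤ ((M : ℤ) : ℝ) := by exact_mod_cast hp.2.2.le
      rwa [Int.cast_abs, Int.cast_natCast] at h3
    · exact (hT p hp.1).2.trans (hZW.trans hM1)
  -- estimates
  have hth0 : (0 : ℝ) ≤ th := by unfold th; norm_num
  have hth1 : th ≤ 1 := by unfold th; norm_num
  have e2 : (M : ℝ) ^ th ≤ 2 * Z ^ (199 / 200 : ℝ) := by
    calc (M : ℝ) ^ th ≤ (2 * W) ^ th := Real.rpow_le_rpow hM0.le hM2 hth0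
      _ = 2 ^ th * W ^ th := Real.mul_rpow (by norm_num) hW0.le
      _ = 2 ^ th * Z ^ (199 / 200 : ℝ) := by
          rw [hW, ← Real.rpow_mul hZ0.le]
          congr 2
          unfold th
          norm_num
      _ ≤ 2 * Z ^ (199 / 200 : ℝ) := by
          apply mul_le_mul_of_nonneg_right _ (Real.rpow_nonneg hZ0.le _)
          have := Real.rpow_le_rpow_of_exponent_le (show (1 : ℝ) ≤ 2 by norm_num) hth1
          rwa [Real.rpow_one] at this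
  have hlog : Real.log Y ≤ 79600 * Z ^ (1 / 39800 : ℝ) := by
    have h3 : Real.log Y ≤ Real.log (2 * Z) :=
      Real.log_le_log (lt_of_lt_of_le hZ0 hY1) hY2
    have h4 : Real.log (2 * Z) ≤ (2 * Z) ^ (1 / 39800 : ℝ) / (1 / 39800) :=
      Real.log_le_rpow_div (by positivity) (by norm_num)
    have h5 : (2 * Z) ^ (1 / 39800 : ℝ) ≤ 2 * Z ^ (1 / 39800 : ℝ) := by
      rw [Real.mul_rpow (by norm_num) hZ0.le]
      apply mul_le_mul_of_nonneg_right _ (Real.rpow_nonneg hZ0.le _)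
      have := Real.rpow_le_rpow_of_exponent_le (show (1 : ℝ) ≤ 2 by norm_num)
        (show (1 / 39800 : ℝ) ≤ 1 by norm_num)
      rwa [Real.rpow_one] at this
    have h6 : (2 * Z) ^ (1 / 39800 : ℝ) / (1 / 39800) = 39800 * (2 * Z) ^ (1 / 39800 : ℝ) := by
      ring
    rw [h6] at h4
    linarith
  have hlog0 : 0 ≤ Real.log Y := Real.log_nonneg (hZ1.trans hY1)
  have hYM' : (Y : ℝ) ^ 2 / M ≤ 4 * (Z ^ 2 / W) := by
    have h3 : (Y : ℝ) ^ 2 ≤ (2 * Z) ^ 2 := pow_le_pow_left₀ (by positivity) hY2 2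
    calc (Y : ℝ) ^ 2 / M ≤ (2 * Z) ^ 2 / W := div_le_div₀ (by positivity) h3 hW0 hM1
      _ = _ := by ring
  have hexp : Z ^ 2 / W * Z ^ (1 / 39800 : ℝ) = Z ^ (199 / 200 : ℝ) := by
    rw [hW, ← Real.rpow_natCast Z 2, ← Real.rpow_sub hZ0, ← Real.rpow_add hZ0]
    congr 1
    norm_num
  have e1 : C2 * (Y : ℝ) ^ 2 / M * Real.log Y ≤ 318400 * C2 * Z ^ (199 / 200 : ℝ) := by
    calc C2 * (Y : ℝ) ^ 2 / M * Real.log Y = C2 * ((Y : ℝ) ^ 2 / M * Real.log Y) := by ring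
      _ ≤ C2 * (4 * (Z ^ 2 / W) * (79600 * Z ^ (1 / 39800 : ℝ))) := by
          apply mul_le_mul_of_nonneg_left _ hC2.le
          exact mul_le_mul hYM' hlog hlog0 (by positivity)
      _ = 318400 * C2 * (Z ^ 2 / W * Z ^ (1 / 39800 : ℝ)) := by ring
      _ = _ := by rw [hexp]
  have e3 : C1 * (M : ℝ) ^ th ≤ 2 * C1 * Z ^ (199 / 200 : ℝ) := by
    calc C1 * (M : ℝ) ^ th ≤ C1 * (2 * Z ^ (199 / 200 : ℝ)) := mul_le_mul_of_nonneg_left e2 hC1.le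
      _ = _ := by ring
  rw [hsum]
  calc (T1.card : ℝ) + T2.card ≤ 318400 * C2 * Z ^ (199 / 200 : ℝ) + 2 * C1 * Z ^ (199 / 200 : ℝ) :=
        add_le_add (b1.trans e1) (b2.trans e3)
    _ = _ := by ring

/-- MODULE FIN. -/
theorem hFIN (h1 : StHGT) (h2 : StSK) : StFIN := by
  intro k hk
  obtain ⟨C, hC, H⟩ := bound h1 h2 k hk
  refine ⟨2 * C, fun Z hZ => ?_⟩
  set S : Set Pt := {p : ℤ × ℤ × ℤ | p.1 ^ 3 + p.2.1 ^ 3 + p.2.2 ^ 3 = k ∧ |(p.2.2 : ℝ)| ≤ Z} with hS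
  have hZ0 : (0 : ℝ) < Z := by linarith
  have key : ∀ T : Finset Pt, (∀ p ∈ T, p ∈ S) → (T.card : ℝ) ≤ 2 * C * Z ^ (199 / 200 : ℝ) := by
    intro T hT
    have h3 := H (2 * Z) (by linarith) T (fun p hp => ⟨(hT p hp).1, (hT p hp).2.trans (by linarith)⟩)
    have h4 : (2 * Z) ^ (199 / 200 : ℝ) ≤ 2 * Z ^ (199 / 200 : ℝ) := by
      rw [Real.mul_rpow (by norm_num) hZ0.le]
      apply mul_le_mul_of_nonneg_right _ (Real.rpow_nonneg hZ0.le _)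
      have := Real.rpow_le_rpow_of_exponent_le (show (1 : ℝ) ≤ 2 by norm_num)
        (show (199 / 200 : ℝ) ≤ 1 by norm_num)
      rwa [Real.rpow_one] at this
    calc (T.card : ℝ) ≤ C * (2 * Z) ^ (199 / 200 : ℝ) := h3
      _ ≤ C * (2 * Z ^ (199 / 200 : ℝ)) := mul_le_mul_of_nonneg_left h4 hC.le
      _ = _ := by ring
  have hfin : S.Finite := by
    by_contra hinf
    obtain ⟨T, hT1, hT2⟩ := (show S.Infinite from hinf).exists_subset_card_eq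
      (⌊2 * C * Z ^ (199 / 200 : ℝ)⌋₊ + 1)
    have h3 := key T (fun p hp => hT1 hp)
    rw [hT2] at h3
    have h4 := Nat.lt_floor_add_one (2 * C * Z ^ (199 / 200 : ℝ))
    push_cast at h3
    linarith
  refine ⟨hfin, ?_⟩
  rw [Set.ncard_eq_toFinset_card S hfin]
  exact key _ (fun p hp => (Set.Finite.mem_toFinset hfin).1 hp)

end Pool.Agent.Helper95.PW
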